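import Pool.Agent.U195.WN.Rel

/-! # One oracle near a given oracle -/

set_option autoImplicit false

namespace Pool.Agent.U195.WN

open Filter hiding join
open Pool.Agent.NPC Pool.Agent.H622R2 Pool.Agent.H620R2.Gauge Pool.Agent.TH678.GC
  Pool.Agent.H591R3.PHG Pool.Agent.TH678.RS Pool.Agent.H622R2.Exp Pool.Agent.Y626.WG
  Pool.Agent.Y581.WN
open Pool.Agent.Y626.WC (sat_one)
open Pool.Agent.W900.RB (Super Region region_len)
open Pool.Agent.W900.CH (Close)

/-- the error depends on strings of polynomial length -/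
theorem loc_c (M : Alg) (σ : List Bool) (H : ℕ) (a : Polynomial ℕ) : ∃ b : Polynomial ℕ,
    ∀ (n : ℕ) (x x' : Inst) (B' B'' : Oracle), (bits x).length ≤ a.eval n →
      (bits x').length ≤ a.eval n →
      (∀ y : List Bool, y.length ≤ b.eval n → B'' y = B' y) →
      Badc M σ H x x' B' → Badc M σ H x x' B'' := by
  obtain ⟨qM, hqM⟩ := M.out_local
  set D : Polynomial ℕ := Polynomial.C (2 * σ.length + 1) + a with hD
  refine ⟨qM.comp D + a * a, ?_⟩
  intro n x x' B' B'' hx hx' hag hbad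
  simp only [Polynomial.eval_add, Polynomial.eval_mul] at hag
  have e1 : ∀ z : Inst, (bits z).length ≤ a.eval n →
      M.out B'' (pairBits σ (bits z)) = M.out B' (pairBits σ (bits z)) := by
    intro z hz
    have hin : (pairBits σ (bits z)).length ≤ D.eval n := by
      rw [length_pairBits, hD, Polynomial.eval_add, Polynomial.eval_C]
      omega
    obtain ⟨Q, _, h11, h12⟩ := hqM B' (pairBits σ (bits z))
    refine h12 B'' fun q hq => hag q ?_
    refine (h11 q hq).trans ?_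
    have h13 : qM.eval (pairBits σ (bits z)).length ≤ (qM.comp D).eval n := by
      rw [Polynomial.eval_comp]
      exact eval_mono' _ hin
    omega
  have e2 : ∀ z : Inst, (bits z).length ≤ a.eval n → (z.Sat B'' ↔ z.Sat B') := by
    intro z hz
    refine sat_loc2 z fun q hq => hag q (hq.trans ?_)
    rw [bits_length] at hz
    have := Nat.mul_le_mul hz hz
    omega
  rintro ⟨r, r', h1, h2, h3, h4, h5⟩
  refine hbad ⟨r, r', by rw [← e1 x hx]; exact h1, by rw [← e1 x' hx']; exact h2, h3, h4,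
    fun h => ?_⟩
  rw [← e2 x hx, ← e2 x' hx']
  exact h5 h

theorem num_c (s C : ℕ) : ∀ᶠ n : ℕ in atTop, ∀ u V : ℕ, u = Nat.log 2 n + 1 →
    V = 2 ^ (256 * u) →
    s + (V ^ 3 * (16 * (256 * u) + 4) + V ^ 2 * (4 * (n + 1 + 0 + 2 * (256 * u)) + 2) + C) ≤
      V ^ 4 ∧
    s + (V ^ 3 * (16 * (256 * u) + 4) + V ^ 2 * (4 * (n + 1 + 0 + 2 * (256 * u)) + 2) + C) ≤
      17 * (256 * u * V ^ 3) := by
  filter_upwards [tendsto_log.eventually (ev_poly (s + C + 2048 + 4096 + 20) 1),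
    eventually_ge_atTop 1] with n h4 h5 u V hu hV
  have h6 : n < 2 ^ u := by rw [hu]; exact Nat.lt_pow_succ_log_self (by norm_num) n
  rw [pow_one, ← hu] at h4
  have hu1 : 1 ≤ u := by omega
  have hV8 : 8 * 2 ^ u ≤ V := by
    have e : (8 : ℕ) * 2 ^ u = 2 ^ (3 + u) := by rw [pow_add]; norm_num
    rw [e, hV]
    exact Nat.pow_le_pow_right (by norm_num) (by omega)
  generalize 2 ^ u = P at h4 h6 hV8
  have h7 : s + C + (4 * (n + 1 + 0 + 2 * (256 * u)) + 2) + (16 * (256 * u) + 4) + 2 ≤ V := by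
    nlinarith
  have hV1 : 1 ≤ V := by omega
  clear hV hu h4 h5 h6 hV8
  have h8 : V ^ 2 * (4 * (n + 1 + 0 + 2 * (256 * u)) + 2) + (s + C) ≤ V ^ 3 := by
    have h9 : s + C ≤ V ^ 2 * (s + C) := Nat.le_mul_of_pos_left _ (by positivity)
    calc V ^ 2 * (4 * (n + 1 + 0 + 2 * (256 * u)) + 2) + (s + C)
        ≤ V ^ 2 * (4 * (n + 1 + 0 + 2 * (256 * u)) + 2) + V ^ 2 * (s + C) := by omega
      _ = V ^ 2 * ((4 * (n + 1 + 0 + 2 * (256 * u)) + 2) + (s + C)) := by ring
      _ ≤ V ^ 2 * V := Nat.mul_le_mul_left _ (by omega)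
      _ = V ^ 3 := by ring
  have h9 : s + (V ^ 3 * (16 * (256 * u) + 4) +
      V ^ 2 * (4 * (n + 1 + 0 + 2 * (256 * u)) + 2) + C) ≤ V ^ 3 * (16 * (256 * u) + 5) := by
    have e : V ^ 3 * (16 * (256 * u) + 5) = V ^ 3 * (16 * (256 * u) + 4) + V ^ 3 := by ring
    rw [e]
    omega
  constructor
  · refine h9.trans ?_
    calc V ^ 3 * (16 * (256 * u) + 5) ≤ V ^ 3 * V := Nat.mul_le_mul_left _ (by omega)
      _ = V ^ 4 := by ring
  · refine h9.trans ?_
    calc V ^ 3 * (16 * (256 * u) + 5) ≤ V ^ 3 * (17 * (256 * u)) :=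
          Nat.mul_le_mul_left _ (by omega)
      _ = 17 * (256 * u * V ^ 3) := by ring

/-- the bound for the size of the instances -/
noncomputable def cst3 (k : ℕ) : Polynomial ℕ :=
  (Polynomial.C 2 * Polynomial.X) ^ 768 *
      (Polynomial.C 16 * (Polynomial.C 256 * (Polynomial.C 2 * Polynomial.X)) + Polynomial.C 4) +
    (Polynomial.C 2 * Polynomial.X) ^ 512 * (Polynomial.C 4 * (Polynomial.X + Polynomial.C 1 +
      Polynomial.C 2 * (Polynomial.C 256 * (Polynomial.C 2 * Polynomial.X))) + Polynomial.C 2) +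
    Polynomial.C (cstr k)

theorem eval_cst3 (k n : ℕ) : (cst3 k).eval n =
    (2 * n) ^ 768 * (16 * (256 * (2 * n)) + 4) +
      (2 * n) ^ 512 * (4 * (n + 1 + 2 * (256 * (2 * n))) + 2) + cstr k := by
  unfold cst3
  simp only [Polynomial.eval_mul, Polynomial.eval_pow, Polynomial.eval_C, Polynomial.eval_X,
    Polynomial.eval_add]

theorem one_stepc (M : Alg) (σ : List Bool) (H : ℕ) :
    ∃ cost b : Polynomial ℕ, ∀ᶠ n : ℕ in atTop, ∀ B : Oracle,
      ∃ B' : Oracle, (∀ y ∉ Region n, B' y = B y) ∧ {y | B y ≠ B' y}.Finite ∧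
      {y | B y ≠ B' y}.ncard ≤ cost.eval n ∧
      ∀ B'' : Oracle, (∀ y : List Bool, y.length ≤ b.eval n → B'' y = B' y) →
        ∃ x x' : Inst, x.IsW 1 ∧ x'.IsW 1 ∧ x.param = 2 * kk M + 4 ∧ x'.param = 2 * kk M + 4 ∧
          (x.labels = x'.labels ∧ x.blocks = x'.blocks ∧ x.atoms = x'.atoms ∧
            x.acc = x'.acc) ∧ Badc M σ H x x' B'' := by
  classical
  obtain ⟨b, hloc⟩ := loc_c M σ H (cst3 (kk M))
  set k := kk M with hk
  have hk1 : 1 ≤ k := by rw [hk]; unfold Pool.Agent.Y626.WG.kk; omega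
  refine ⟨cst1 (k + 0), b, ?_⟩
  filter_upwards [num_c (2 * σ.length + 3 + H + 34) (cstr k), eventually_ge_atTop 1]
    with n hnum h1 B
  set u := Nat.log 2 n + 1 with hu
  have hu1 : 2 ^ u ≤ 2 * n := pow_log_le h1
  have hu2 : u ≤ 2 * n := (Nat.lt_two_pow_self (n := u)).le.trans hu1
  have hu0 : 1 ≤ u := by omega
  obtain ⟨hn1, hn2⟩ := hnum u (2 ^ (256 * u)) rfl rfl
  obtain ⟨μ, hμ⟩ : ∃ μ, μ = 256 * u := ⟨_, rfl⟩
  have e2 : (2 ^ (256 * u)) ^ 2 = 2 ^ (2 * μ) := by rw [← pow_mul, hμ, mul_comm]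
  have e3 : (2 ^ (256 * u)) ^ 3 = 2 ^ (3 * μ) := by rw [← pow_mul, hμ, mul_comm]
  have e4 : (2 ^ (256 * u)) ^ 4 = 2 ^ (2 * (2 * μ)) := by
    rw [← pow_mul]
    have : 256 * u * 4 = 2 * (2 * μ) := by omega
    rw [this]
  rw [e2, e3, e4, ← hμ] at hn1
  rw [e2, e3, ← hμ] at hn2
  obtain ⟨h4, h5, h6, h7⟩ := t_blk n k 0 0 (2 * μ) hk1
  have hsz : ∀ f : Fin (2 ^ (3 * μ)) → Fin (2 ^ μ),
      (bits (hardr n k (2 * μ) (RR μ f))).length ≤ 2 ^ (3 * μ) * (16 * μ + 4) +
      2 ^ (2 * μ) * (4 * (n + 1 + 0 + 2 * μ) + 2) + cstr k := by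
    intro f
    rw [bits_length]
    exact sz_hardr n k μ f
  have hcard : (Blk n k 0 0 (2 * μ)).ncard ≤ (cst1 (k + 0)).eval n := by
    rw [eval_cst1]
    refine h5.trans (le_trans ?_ (cost_aux u (k + 0) (2 * n) hu1))
    have e5 : 2 * μ = 512 * u := by omega
    rw [e5]
    exact Nat.mul_le_mul_right _ (Nat.pow_le_pow_right (by norm_num) (by omega))
  have hsa : ∀ f : Fin (2 ^ (3 * μ)) → Fin (2 ^ μ),
      (bits (hardr n k (2 * μ) (RR μ f))).length ≤ (cst3 k).eval n := by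
    intro f
    refine (hsz f).trans ?_
    rw [eval_cst3]
    have e6 : 2 ^ (3 * μ) = (2 ^ u) ^ 768 := by
      rw [← pow_mul]
      have : u * 768 = 3 * μ := by omega
      rw [this]
    have e7 : 2 ^ (2 * μ) = (2 ^ u) ^ 512 := by
      rw [← pow_mul]
      have : u * 512 = 2 * μ := by omega
      rw [this]
    rw [e6, e7]
    have h8 : (2 ^ u) ^ 768 ≤ (2 * n) ^ 768 := Nat.pow_le_pow_left hu1 _
    have h9 : (2 ^ u) ^ 512 ≤ (2 * n) ^ 512 := Nat.pow_le_pow_left hu1 _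
    have h10 : 16 * μ + 4 ≤ 16 * (256 * (2 * n)) + 4 := by omega
    have h11 : 4 * (n + 1 + 0 + 2 * μ) + 2 ≤ 4 * (n + 1 + 2 * (256 * (2 * n))) + 2 := by omega
    exact Nat.add_le_add_right (Nat.add_le_add (Nat.mul_le_mul h8 h10)
      (Nat.mul_le_mul h9 h11)) _
  obtain ⟨B', h8, f, f', h9⟩ := core_c M σ H (n := n) (μ := μ) (by omega) (by
    intro f
    rw [length_pairBits, ← hk]
    have := hsz f
    omega) (by
    intro f
    rw [← hk]
    have := hsz f
    omega) B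
  have h10 : {y | B y ≠ B' y} ⊆ Blk n k 0 0 (2 * μ) := by
    intro y hy
    by_contra hc
    exact hy (h8 y hc).symm
  exact ⟨B', fun y hy => h8 y fun hc => hy (h6 hc), h4.subset h10,
    (Set.ncard_le_ncard h10 h4).trans hcard, fun B'' hB'' =>
    ⟨hardr n k (2 * μ) (RR μ f), hardr n k (2 * μ) (RR μ f'), hardr_isW _ _ _ _,
      hardr_isW _ _ _ _, hardr_param _ _ _ _, hardr_param _ _ _ _,
      ⟨rfl, rfl, rfl, rfl⟩, hloc n _ _ B' B'' (hsa f) (hsa f') hB'' h9⟩⟩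

/-- The parameterized problem `P` has a compression relative to `A`: after an arbitrary
precomputation on the parameter, a string `r a` with at most `|a| / 17 + h (κ a)` bits is computed
in polynomial time relative to `A`, which together with the parameter determines the answer. -/
def Comp (A : Oracle) {α : Type} [TEnc α] (κ : α → ℕ) (P : α → Prop) : Prop :=
  ∃ (π : ℕ → List Bool) (h : ℕ → ℕ) (M : Alg) (r : α → List Bool),
    (∀ a, M.out A (pairBits (π (κ a)) (bits a)) = some (r a) ∧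
      17 * (r a).length ≤ h (κ a) + (bits a).length) ∧
    ∀ a b, κ a = κ b → r a = r b → (P a ↔ P b)

/-- The existential sentences have a compression of the relations relative to `A`: after an
arbitrary precomputation on the parameter, a string `r I` with at most `|I| / 17 + h k` bits is
computed in polynomial time relative to `A`, which together with the labels of the elements and the
sentence determines the answer. -/
def RelComp (A : Oracle) : Prop :=
  ∃ (π : ℕ → List Bool) (h : ℕ → ℕ) (M : Alg) (r : WInst 1 → List Bool),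
    (∀ I, M.out A (pairBits (π I.1.param) (bits I)) = some (r I) ∧
      17 * (r I).length ≤ h I.1.param + (bits I).length) ∧
    ∀ I J : WInst 1, I.1.labels = J.1.labels → I.1.blocks = J.1.blocks →
      I.1.atoms = J.1.atoms → I.1.acc = J.1.acc → r I = r J → (I.1.Sat A ↔ J.1.Sat A)

theorem Comp.rel {A : Oracle} (h : Comp A (fun I : WInst 1 => I.1.param) (fun I => I.1.Sat A)) :
    RelComp A := by
  obtain ⟨π, h, M, r, h1, h2⟩ := h
  refine ⟨π, h, M, r, h1, fun I J _ h3 h4 _ h5 => h2 I J ?_ h5⟩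
  show I.1.param = J.1.param
  unfold Inst.param
  rw [h3, h4]

/-- a power of the logarithm is small -/
theorem log_pow_le (H c : ℕ) : ∃ h : ℕ, ∀ m : ℕ,
    17 * (H * (Nat.log 2 m + 1)) ^ c ≤ h + m := by
  have h1 := log_small ((Polynomial.C 17) * (Polynomial.C H * Polynomial.X) ^ c)
  obtain ⟨m₀, h2⟩ := eventually_atTop.1 h1
  refine ⟨17 * (H * (Nat.log 2 m₀ + 1)) ^ c, fun m => ?_⟩
  rcases le_total m₀ m with h3 | h3
  · have h4 := h2 m h3
    rw [Polynomial.eval_mul, Polynomial.eval_pow, Polynomial.eval_mul, Polynomial.eval_C,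
      Polynomial.eval_C, Polynomial.eval_X] at h4
    omega
  · have h4 : (H * (Nat.log 2 m + 1)) ^ c ≤ (H * (Nat.log 2 m₀ + 1)) ^ c :=
      Nat.pow_le_pow_left (Nat.mul_le_mul_left _
        (Nat.add_le_add_right (Nat.log_mono_right h3) _)) _
    omega

theorem InM1n.comp {A : Oracle} {α : Type} [TEnc α] {κ : α → ℕ} {P : α → Prop}
    (h : InM1n A κ P) : Comp A κ P := by
  obtain ⟨π, h, c, M, r, L, _, hr⟩ := h
  choose h' hh' using fun k => log_pow_le (h k) c
  refine ⟨π, h', M, r, fun a => ⟨(hr a).1, ?_⟩, fun a b _ h2 => ?_⟩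
  · exact (Nat.mul_le_mul_left _ (hr a).2.1).trans (hh' (κ a) _)
  · rw [(hr a).2.2, (hr b).2.2, h2]

/-- the enumeration of the requirements -/
theorem exists_enumc : ∃ e : ℕ → (ℕ × Alg × List Bool × ℕ) ⊕ (Alg × List Bool × ℕ),
    Function.Surjective e := by
  have hcn := CC.poly_countable
  have hc2 : Countable Alg := Alg.countable
  obtain ⟨M, _⟩ := IsFP.of_poly (A := fun _ => false) (F := fun y : List Bool => y) NPC.Poly.id
  have : Nonempty ((ℕ × Alg × List Bool × ℕ) ⊕ (Alg × List Bool × ℕ)) := ⟨Sum.inr (M, [], 0)⟩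
  exact exists_surjective_nat _

/-- the requirements -/
def Req : (ℕ × Alg × List Bool × ℕ) ⊕ (Alg × List Bool × ℕ) → Oracle → Prop
  | Sum.inl (t, M, σ, G) => fun A => ∃ x : Inst, x.IsW (t + 1) ∧
      x.param = 2 * (kk M + t) + 1 ∧ Badn t M σ G x A
  | Sum.inr (M, σ, H) => fun A => ∃ x x' : Inst, x.IsW 1 ∧ x'.IsW 1 ∧ x.param = 2 * kk M + 4 ∧
      x'.param = 2 * kk M + 4 ∧ (x.labels = x'.labels ∧ x.blocks = x'.blocks ∧
        x.atoms = x'.atoms ∧ x.acc = x'.acc) ∧ Badc M σ H x x' A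

theorem step (q : (ℕ × Alg × List Bool × ℕ) ⊕ (Alg × List Bool × ℕ)) :
    ∃ cost b : Polynomial ℕ, ∀ᶠ n : ℕ in atTop, ∀ B : Oracle,
      ∃ B' : Oracle, (∀ y ∉ Region n, B' y = B y) ∧ {y | B y ≠ B' y}.Finite ∧
      {y | B y ≠ B' y}.ncard ≤ cost.eval n ∧
      ∀ B'' : Oracle, (∀ y : List Bool, y.length ≤ b.eval n → B'' y = B' y) → Req q B'' := by
  rcases q with ⟨t, M, σ, G⟩ | ⟨M, σ, H⟩
  · exact one_step t_blk t_onea t_loc t_siz t M σ G
  · exact one_stepc M σ H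

theorem final {g : ℕ → ℝ} (hg : Super g) (O : Oracle) : ∃ A : Oracle, Close g O A ∧
    InW 1 A (fun I : WInst 1 => I.1.param) (fun I => I.1.Sat A) ∧
    ¬ RelComp A ∧
    (∀ (α : Type) [TEnc α] (κ : α → ℕ) (P : α → Prop), InM1n A κ P → Comp A κ P) ∧
    ¬ InM1n A (fun I : WInst 1 => I.1.param) (fun I => I.1.Sat A) ∧
    ∀ t : ℕ,
      (∀ (α : Type) [TEnc α] (κ : α → ℕ) (P : α → Prop), InW t A κ P →
        InW (t + 1) A κ P ∧ InA t A κ P) ∧
      InW (t + 1) A (fun I : WInst (t + 1) => I.1.param) (fun I => I.1.Sat A) ∧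
      ¬ InA t A (fun I : WInst (t + 1) => I.1.param) (fun I => I.1.Sat A) := by
  obtain ⟨e, he⟩ := exists_enumc
  choose cost b hcb using fun k => step (e k)
  obtain ⟨A, n, _, _, hA, _, hW⟩ := Pool.Agent.W900.RB.stages hg O
    (fun k _ A => Req (e k) A) cost b 0 (fun k => hcb k)
  have hrel : ¬ RelComp A := by
    rintro ⟨π, h, M, r, h1, h2⟩
    obtain ⟨k, hk⟩ := he (Sum.inr (M, π (2 * kk M + 4), h (2 * kk M + 4)))
    have h3 := hW k
    rw [hk] at h3
    obtain ⟨x, x', hx, hx', hp, hp', ⟨e1, e2, e3, e4⟩, hbad⟩ := h3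
    have h4 := h1 ⟨x, hx⟩
    have h5 := h1 ⟨x', hx'⟩
    dsimp only at h4 h5
    rw [hp] at h4
    rw [hp'] at h5
    exact hbad ⟨_, _, h4.1, h5.1, h4.2, h5.2, h2 ⟨x, hx⟩ ⟨x', hx'⟩ e1 e2 e3 e4⟩
  refine ⟨A, hA, mc_inW _ _, hrel, fun α _ κ P h => InM1n.comp h,
    fun h => hrel (InM1n.comp h).rel,
    fun t => ⟨fun α _ κ P h => ⟨inW_mono h, inW_inA h⟩, mc_inW _ _, ?_⟩⟩
  rintro ⟨π, g', R, M, h⟩
  obtain ⟨k, hk⟩ := he (Sum.inl (t, M, π (2 * (kk M + t) + 1), g' (2 * (kk M + t) + 1)))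
  have h3 := hW k
  rw [hk] at h3
  obtain ⟨x, hx1, hx2, hbad⟩ := h3
  have h1 := h ⟨x, hx1⟩
  dsimp only at h1
  rw [hx2] at h1
  exact hbad ⟨R ⟨x, hx1⟩, h1.1, h1.2.1, h1.2.2.1, h1.2.2.2⟩

end Pool.Agent.U195.WN
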