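import Pool.Agent.Y581.WN.StmS

/-! # The hard instances with labels in one region -/

set_option autoImplicit false

namespace Pool.Agent.U195.WN

open Filter Pool.Agent.NPC Pool.Agent.H622R2 Pool.Agent.H620R2.Gauge Pool.Agent.TH678.GC
  Pool.Agent.H591R3.PHG Pool.Agent.TH678.RS Pool.Agent.H622R2.Exp Pool.Agent.Y626.WG
  Pool.Agent.Y581.WN

theorem length_labn' (n c ν j i : ℕ) : (labn n c ν j i).length = n + 1 + c + ν := by
  unfold labn
  rw [List.length_append, List.length_cons, List.length_append, List.length_replicate,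
    length_bitsOf, length_bitsOf]
  ring

theorem length_flatn (n c ν j : ℕ) (v : List ℕ) :
    (v.flatMap (labn n c ν j)).length = v.length * (n + 1 + c + ν) := by
  induction v with
  | nil => simp
  | cons a v ih =>
    rw [List.flatMap_cons, List.length_append, length_labn', ih, List.length_cons]
    ring

theorem flatn_inj {n c ν : ℕ} : ∀ {r : ℕ} {v v' : List ℕ} {j j' : ℕ}, 1 ≤ r →
    Tup (2 ^ ν) r v → Tup (2 ^ ν) r v' → j < 2 ^ c → j' < 2 ^ c →
    v.flatMap (labn n c ν j) = v'.flatMap (labn n c ν j') → j = j' ∧ v = v' := by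
  intro r
  induction r with
  | zero => intro v v' j j' h; omega
  | succ r ih =>
    intro v v' j j' _ hv hv' hj hj' h
    rcases v with _ | ⟨a, v⟩
    · exact absurd hv.1 (by simp)
    rcases v' with _ | ⟨a', v'⟩
    · exact absurd hv'.1 (by simp)
    rw [List.flatMap_cons, List.flatMap_cons] at h
    obtain ⟨h1, h2⟩ := List.append_inj h (by rw [length_labn', length_labn'])
    have h3 : bitsOf c j ++ bitsOf ν a = bitsOf c j' ++ bitsOf ν a' := by
      unfold labn at h1
      exact (List.cons.inj (List.append_cancel_left h1)).2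
    obtain ⟨h4, h5⟩ := List.append_inj h3 (by rw [length_bitsOf, length_bitsOf])
    have hj0 : j = j' := bitsOf_inj hj hj' h4
    have ha : a = a' := bitsOf_inj (hv.2 a (List.mem_cons_self ..))
      (hv'.2 a' (List.mem_cons_self ..)) h5
    subst hj0
    subst ha
    refine ⟨rfl, ?_⟩
    rcases Nat.eq_zero_or_pos r with h0 | h0
    · subst h0
      have e1 : v = [] := List.eq_nil_of_length_eq_zero (by simpa using hv.1)
      have e2 : v' = [] := List.eq_nil_of_length_eq_zero (by simpa using hv'.1)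
      rw [e1, e2]
    · have h6 := ih h0 (v := v) (v' := v') (j := j) (j' := j)
        ⟨by simpa using hv.1, fun x hx => hv.2 x (List.mem_cons_of_mem _ hx)⟩
        ⟨by simpa using hv'.1, fun x hx => hv'.2 x (List.mem_cons_of_mem _ hx)⟩ hj hj h2
      rw [h6.2]

/-- the number of the tuples -/
theorem tup_finite (N r : ℕ) : {v : List ℕ | Tup N r v}.Finite ∧
    {v : List ℕ | Tup N r v}.ncard ≤ N ^ r := by
  classical
  have h : {v : List ℕ | Tup N r v} ⊆
      (Finset.univ.image fun w : Fin r → Fin N => List.ofFn fun i => (w i : ℕ) :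
        Finset (List ℕ)) := by
    rintro v ⟨h1, h2⟩
    subst h1
    rw [Finset.coe_image, Finset.coe_univ, Set.image_univ]
    refine ⟨fun i => ⟨v[i], h2 _ (List.getElem_mem _)⟩, ?_⟩
    simp
  refine ⟨(Finset.finite_toSet _).subset h, (Set.ncard_le_ncard h (Finset.finite_toSet _)).trans ?_⟩
  rw [Set.ncard_coe_finset]
  refine Finset.card_image_le.trans ?_
  rw [Finset.card_univ, Fintype.card_fun, Fintype.card_fin, Fintype.card_fin]

theorem t_blk : S_blk := by
  classical
  intro n k t c ν hk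
  have h1 : Blk n k t c ν ⊆
      ((Finset.range (2 ^ c)) ×ˢ (tup_finite (2 ^ ν) (k + t)).1.toFinset).image
        (fun p : ℕ × List ℕ => p.2.flatMap (labn n c ν p.1)) := by
    rintro q ⟨j, hj, v, hv, rfl⟩
    refine Finset.mem_coe.2 (Finset.mem_image.2 ⟨(j, v), ?_, rfl⟩)
    rw [Finset.mem_product]
    exact ⟨Finset.mem_range.2 hj, (Set.Finite.mem_toFinset _).2 hv⟩
  refine ⟨(Finset.finite_toSet _).subset h1, ?_, ?_, ?_⟩
  · refine (Set.ncard_le_ncard h1 (Finset.finite_toSet _)).trans ?_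
    rw [Set.ncard_coe_finset]
    refine Finset.card_image_le.trans ?_
    rw [Finset.card_product, Finset.card_range]
    refine Nat.mul_le_mul_left _ ?_
    have h2 := (tup_finite (2 ^ ν) (k + t)).2
    rw [Set.ncard_eq_toFinset_card _ (tup_finite (2 ^ ν) (k + t)).1] at h2
    exact h2.trans (by rw [← pow_mul])
  · rintro q ⟨j, hj, v, hv, rfl⟩
    rcases v with _ | ⟨a, v⟩
    · have := hv.1
      rw [List.length_nil] at this
      omega
    refine ⟨(bitsOf c j ++ bitsOf ν a) ++ v.flatMap (labn n c ν j), ?_⟩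
    rw [List.flatMap_cons]
    show (List.replicate n true ++ false :: (bitsOf c j ++ bitsOf ν a)) ++ _ = _
    rw [List.append_assoc, List.cons_append]
  · rintro q ⟨j, hj, v, hv, rfl⟩
    rw [length_flatn, hv.1]

theorem isLeafn_unique {n k t c ν τ : ℕ} {S : ℕ → List ℕ} (hS : Sel k ν τ S) (hk : 1 ≤ k)
    {q : List Bool} {p p' : ℕ × ℕ × List ℕ} (h : IsLeafn n t c ν τ S q p)
    (h' : IsLeafn n t c ν τ S q p') : p = p' := by
  obtain ⟨h1, h2, h3, h4⟩ := h
  obtain ⟨h1', h2', h3', h4'⟩ := h'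
  obtain ⟨h5, h6⟩ := flatn_inj (n := n) (c := c) (ν := ν) (r := k + t) (by omega)
    ((hS.tup _ h2).append h3) ((hS.tup _ h2').append h3') h1 h1' (h4.symm.trans h4')
  obtain ⟨h7, h8⟩ := List.append_inj h6 (by rw [(hS.tup _ h2).1, (hS.tup _ h2').1])
  exact Prod.ext h5 (Prod.ext (hS.inj _ h2 _ h2' h7) h8)

theorem leafn_blk {n k t c ν τ : ℕ} {S : ℕ → List ℕ} (hS : Sel k ν τ S) {q : List Bool}
    {p : ℕ × ℕ × List ℕ} (h : IsLeafn n t c ν τ S q p) : q ∈ Blk n k t c ν :=
  ⟨p.1, h.1, S p.2.1 ++ p.2.2, (hS.tup _ h.2.1).append h.2.2.1, h.2.2.2⟩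

theorem orcn_base {B : Oracle} {n k t c ν τ : ℕ} {S : ℕ → List ℕ} {rest : List ℕ}
    {f : List Bool → Bool} {q : List Bool} (h : ¬ ∃ p, IsLeafn n t c ν τ S q p) :
    orcn B n k t c ν τ S rest f q = basen B n k t c ν q := by
  unfold orcn
  rw [dif_neg h]

theorem orcn_off {B : Oracle} {n k t c ν τ : ℕ} {S : ℕ → List ℕ} (hS : Sel k ν τ S)
    {rest : List ℕ} {f : List Bool → Bool} {q : List Bool} (h : q ∉ Blk n k t c ν) :
    orcn B n k t c ν τ S rest f q = B q := by
  rw [orcn_base (fun ⟨p, hp⟩ => h (leafn_blk hS hp))]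
  exact if_neg h

theorem orcn_leaf {B : Oracle} {n k t c ν τ : ℕ} {S : ℕ → List ℕ} (hS : Sel k ν τ S)
    (hk : 1 ≤ k) {rest : List ℕ} {f : List Bool → Bool} {q : List Bool}
    {p : ℕ × ℕ × List ℕ} (h : IsLeafn n t c ν τ S q p) :
    orcn B n k t c ν τ S rest f q =
      (f (bitsOf c p.1 ++ bitsOf τ p.2.1 ++ path rest p.2.2) == !(fl t false)) := by
  unfold orcn
  have hex : ∃ p, IsLeafn n t c ν τ S q p := ⟨p, h⟩
  rw [dif_pos hex]
  have hp : hex.choose = p := isLeafn_unique hS hk hex.choose_spec h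
  rw [hp]

theorem queryn {n k t c ν j : ℕ} {v : List ℕ} (hv : Tup (2 ^ ν) (k + t) v) :
    (List.range (k + t)).flatMap
      (fun i => (hardn n k t c ν j).labels.getD (v.getD i 0) []) = v.flatMap (labn n c ν j) := by
  have h0 : k + t = v.length := hv.1.symm
  rw [h0, flat_getD v (fun a => (hardn n k t c ν j).labels.getD a [])]
  refine flatMap_congr' fun a ha => ?_
  have ha' : a < 2 ^ ν := hv.2 a ha
  show ((List.range (2 ^ ν)).map (labn n c ν j)).getD a [] = _
  rw [List.getD_eq_getElem _ _ (by simpa using ha')]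
  simp

theorem atomn {A : Oracle} {n k t c ν j : ℕ} {v : List ℕ} (hv : Tup (2 ^ ν) (k + t) v) :
    (hardn n k t c ν j).atoms.map ((hardn n k t c ν j).atom A v) ∈ (hardn n k t c ν j).acc ↔
      A (v.flatMap (labn n c ν j)) = true := by
  have e : (hardn n k t c ν j).atom A v (0, List.range (k + t)) =
      A (v.flatMap (labn n c ν j)) := by
    show A ((List.range (k + t)).flatMap
      (fun i => (hardn n k t c ν j).labels.getD (v.getD i 0) [])) = _
    rw [queryn hv]
  show [(hardn n k t c ν j).atom A v (0, List.range (k + t))] ∈ [[true]] ↔ _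
  rw [e]
  simp

theorem satn_iff {A : Oracle} {n k t c ν j : ℕ} : (hardn n k t c ν j).Sat A ↔
    ∃ w : List ℕ, w.length = k ∧ (∀ a ∈ w, a < 2 ^ ν) ∧
      Holds (2 ^ ν) (fun v => (hardn n k t c ν j).atoms.map ((hardn n k t c ν j).atom A v) ∈
        (hardn n k t c ν j).acc) false (List.replicate t 1) w := by
  have hN : (hardn n k t c ν j).labels.length = 2 ^ ν := by
    show ((List.range (2 ^ ν)).map (labn n c ν j)).length = _
    rw [List.length_map, List.length_range]
  unfold Inst.Sat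
  rw [hN]
  show (∃ w : List ℕ, w.length = k ∧ (∀ a ∈ w, a < 2 ^ ν) ∧
    Holds (2 ^ ν) _ false (List.replicate t 1) ([] ++ w)) ↔ _
  simp only [List.nil_append]

theorem t_sat : S_sat := by
  intro B n k t c ν τ j S hS hk hj rest ht hrest f
  set A := orcn B n k t c ν τ S rest f with hA
  have hN1 : 1 ≤ 2 ^ ν := Nat.one_le_two_pow
  rw [satn_iff]
  set P : List ℕ → Prop := fun v =>
    (hardn n k t c ν j).atoms.map ((hardn n k t c ν j).atom A v) ∈ (hardn n k t c ν j).acc with hP
  have hP1 : ∀ v, Tup (2 ^ ν) (k + t) v → (P v ↔ A (v.flatMap (labn n c ν j)) = true) :=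
    fun v hv => atomn hv
  have hup : ∀ i < 2 ^ τ, (Holds (2 ^ ν) P false (List.replicate t 1) (S i) ↔
      rest.foldr up f (bitsOf c j ++ bitsOf τ i) = true) := by
    intro i hi
    have h1 := holds_up (N := 2 ^ ν) (P := P) (f := f) rest false (bitsOf c j ++ bitsOf τ i) (S i)
      (fun a ha => Nat.pow_le_pow_right (by norm_num) (hrest a ha)) (by
      intro y hy1 hy2
      have hy : Tup (2 ^ ν) t y := ⟨hy1.trans ht, hy2⟩
      rw [hP1 _ ((hS.tup i hi).append hy)]
      have hleaf : IsLeafn n t c ν τ S ((S i ++ y).flatMap (labn n c ν j)) (j, i, y) :=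
        ⟨hj, hi, hy, rfl⟩
      rw [hA, orcn_leaf hS hk hleaf, ht]
      dsimp only
      rw [beq_iff_eq])
    rw [ht] at h1
    exact h1
  have hoff : ∀ w, Tup (2 ^ ν) k w → (∀ i < 2 ^ τ, S i ≠ w) →
      ¬ Holds (2 ^ ν) P false (List.replicate t 1) w := by
    intro w hw hne
    refine not_holds hN1 _ _ _ fun y hy1 hy2 => ?_
    have hy : Tup (2 ^ ν) t y := ⟨by rw [hy1, List.sum_replicate]; simp, hy2⟩
    rw [hP1 _ (hw.append hy), hA, orcn_base]
    · have hq : (w ++ y).flatMap (labn n c ν j) ∈ Blk n k t c ν :=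
        ⟨j, hj, w ++ y, hw.append hy, rfl⟩
      have : basen B n k t c ν ((w ++ y).flatMap (labn n c ν j)) = false := if_pos hq
      rw [this]
      exact Bool.false_ne_true
    · rintro ⟨⟨j', i, y'⟩, h1, h2, h3, h4⟩
      obtain ⟨_, h5⟩ := flatn_inj (n := n) (c := c) (ν := ν) (r := k + t) (by omega)
        (hw.append hy) ((hS.tup _ h2).append h3) hj h1 h4
      exact hne i h2 (List.append_inj h5 (by rw [(hS.tup _ h2).1, hw.1])).1.symm
  rw [List.foldr_cons, ← Bool.not_eq_true]
  have e1 : up τ (rest.foldr up f) (bitsOf c j) = true ↔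
      ∀ i < 2 ^ τ, rest.foldr up f (bitsOf c j ++ bitsOf τ i) = false := by
    unfold up
    rw [decide_eq_true_iff]
  rw [e1]
  push Not
  constructor
  · rintro ⟨w, h1, h2, h3⟩
    by_contra hcon
    push Not at hcon
    refine hoff w ⟨h1, h2⟩ ?_ h3
    rintro i hi rfl
    have h4 := (hup i hi).1 h3
    have h5 := hcon i hi
    rw [h4] at h5
    exact Bool.true_eq_false.mp h5
  · rintro ⟨i, hi, h1⟩
    refine ⟨S i, (hS.tup i hi).1, (hS.tup i hi).2, (hup i hi).2 ?_⟩
    simpa using h1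

end Pool.Agent.U195.WN
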