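import Pool.Agent.U195.WN.Hardn

/-! # The leaves, the choice of the addresses, the sizes and the numbers -/

set_option autoImplicit false

namespace Pool.Agent.U195.WN

open Filter Pool.Agent.NPC Pool.Agent.H622R2 Pool.Agent.H620R2.Gauge Pool.Agent.TH678.GC
  Pool.Agent.H591R3.PHG Pool.Agent.TH678.RS Pool.Agent.H622R2.Exp Pool.Agent.Y626.WG
  Pool.Agent.Y581.WN

theorem sing_orcn {K : ℕ} (c : ℕ) (as : List ℕ) (s : Idx (Fin K) (pw as) → Option Bool)
    (B : Oracle) (n k t ν τ : ℕ) (S : ℕ → List ℕ) (rest : List ℕ) (q : List Bool) :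
    Sing (fun z => orcn B n k t c ν τ S rest (fo c as (val s z)) q) := by
  unfold orcn
  by_cases h2 : ∃ p, IsLeafn n t c ν τ S q p
  · simp only [dif_pos h2]
    exact (sing_fo as s _).comp (fun b => b == !(fl t false))
  · simp only [dif_neg h2]
    exact Or.inl ⟨_, fun _ => rfl⟩

/-- the truth values of the atoms, as decision trees -/
theorem sing_atomn {K : ℕ} (c : ℕ) (as : List ℕ) (s : Idx (Fin K) (pw as) → Option Bool)
    (B : Oracle) (n k t ν τ : ℕ) (S : ℕ → List ℕ) (rest : List ℕ) (I : Inst) (v : List ℕ)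
    (a : ℕ × List ℕ) :
    Sing (fun z => I.atom (orcn B n k t c ν τ S rest (fo c as (val s z))) v a) := by
  obtain ⟨r, l⟩ := a
  rcases r with _ | r
  · exact sing_orcn c as s B n k t ν τ S rest _
  · exact Or.inl ⟨_, fun _ => rfl⟩

theorem t_mat : S_mat := by
  intro K c as s B n k t ν τ S rest I v
  have h1 := DTr_list (I.atoms.map fun a (z : Idx (Fin K) (pw as) → Bool) =>
    I.atom (orcn B n k t c ν τ S rest (fo c as (val s z))) v a) (by
    intro f hf
    obtain ⟨a, _, rfl⟩ := List.mem_map.1 hf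
    exact sing_atomn c as s B n k t ν τ S rest I v a)
    (fun x => @decide (x ∈ I.acc) (Classical.propDecidable _))
  rw [List.length_map] at h1
  refine (congrArg (Pool.Agent.H676.DTr I.atoms.length) (funext fun z => ?_)).mp h1
  rw [List.map_map]
  rfl

theorem t_sel : S_sel := by
  classical
  intro n k t c ν τ hk Q h
  have htup : ∀ w : Fin k → Fin (2 ^ ν), Tup (2 ^ ν) k (List.ofFn fun i => (w i : ℕ)) := by
    intro w
    refine ⟨List.length_ofFn, fun x hx => ?_⟩
    obtain ⟨i, rfl⟩ := (List.mem_ofFn' _ _).1 hx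
    exact (w i).2
  have hinj : ∀ w w' : Fin k → Fin (2 ^ ν), (List.ofFn fun i => (w i : ℕ)) =
      (List.ofFn fun i => (w' i : ℕ)) → w = w' := by
    intro w w' h1
    have h2 := List.ofFn_injective h1
    funext i
    exact Fin.ext (congrFun h2 i)
  set Z : Finset (Fin k → Fin (2 ^ ν)) := Finset.univ.filter fun w =>
    ∃ q ∈ Q, ∃ j < 2 ^ c, ∃ y, Tup (2 ^ ν) t y ∧
      q = ((List.ofFn fun i => (w i : ℕ)) ++ y).flatMap (labn n c ν j) with hZ
  have h1 : Z.card ≤ Q.card := by
    have h0 : ∀ w ∈ Z, ∃ q ∈ Q, ∃ j < 2 ^ c, ∃ y, Tup (2 ^ ν) t y ∧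
      q = ((List.ofFn fun i => (w i : ℕ)) ++ y).flatMap (labn n c ν j) := fun w hw =>
      (Finset.mem_filter.1 hw).2
    choose! g hg using h0
    refine Finset.card_le_card_of_injOn g (fun w hw => (hg w hw).1) ?_
    intro w hw w' hw' he
    obtain ⟨_, j, hj, y, hy, e⟩ := hg w hw
    obtain ⟨_, j', hj', y', hy', e'⟩ := hg w' hw'
    have h2 := flatn_inj (n := n) (c := c) (ν := ν) (r := k + t) (by omega)
      ((htup w).append hy) ((htup w').append hy') hj hj' (e.symm.trans (he.trans e'))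
    exact hinj _ _ (List.append_inj h2.2 (by simp)).1
  have h2 : 2 ^ τ ≤ (Zᶜ).card := by
    rw [Finset.card_compl, Fintype.card_fun, Fintype.card_fin, Fintype.card_fin, ← pow_mul]
    omega
  obtain ⟨W, hW1, hW2⟩ := Finset.exists_subset_card_eq h2
  have e := Finset.equivFinOfCardEq hW2
  refine ⟨fun i => if h : i < 2 ^ τ then List.ofFn fun a => ((e.symm ⟨i, h⟩).1 a : ℕ) else [],
    ⟨?_, ?_⟩, ?_⟩
  · intro i hi
    rw [dif_pos hi]
    exact htup _
  · intro i hi i' hi' h3
    rw [dif_pos hi, dif_pos hi'] at h3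
    have h4 := e.symm.injective (Subtype.ext (hinj _ _ h3))
    simpa using h4
  · rintro q hq ⟨⟨j, i, y⟩, h3, h4, h5, h6⟩
    dsimp only at h3 h4 h5 h6
    rw [dif_pos h4] at h6
    have h7 := hW1 (e.symm ⟨i, h4⟩).2
    rw [Finset.mem_compl] at h7
    exact h7 (Finset.mem_filter.2 ⟨Finset.mem_univ _, q, hq, j, h3, y, h5, h6⟩)

theorem t_siz : S_siz := by
  intro n k t c ν j
  have e : sz (hardn n k t c ν j) = sz ((List.range (2 ^ ν)).map (labn n c ν j)) +
      (sz ([] : List (List (ℕ × ℕ))) + (sz (k :: List.replicate t 1) +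
      (sz ([(0, List.range (k + t))] : List (ℕ × List ℕ)) + sz [[true]] + 1) + 1) + 1) + 1 := by
    have : sz (hardn n k t c ν j) = sz ((List.range (2 ^ ν)).map (labn n c ν j),
      ([] : List (List (ℕ × ℕ))), k :: List.replicate t 1,
      ([(0, List.range (k + t))] : List (ℕ × List ℕ)), [[true]]) := rfl
    rw [this, sz_pair, sz_pair, sz_pair, sz_pair]
  have h1 := sz_le_length_mul ((List.range (2 ^ ν)).map (labn n c ν j))
    (4 * (n + 1 + c + ν) + 1) (by
      intro a ha
      obtain ⟨i, _, rfl⟩ := List.mem_map.1 ha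
      have := sz_listBool_le (labn n c ν j i)
      rw [length_labn'] at this
      exact this)
  rw [List.length_map, List.length_range] at h1
  have h2 : sz [[true]] = 7 := by simp
  have h3 : sz ([] : List (List (ℕ × ℕ))) = 1 := rfl
  rw [e, h2, h3]
  unfold cst
  have e2 : 4 * (n + 1 + c + ν) + 1 + 1 = 4 * (n + 1 + c + ν) + 2 := rfl
  rw [e2] at h1
  omega

theorem tendsto_log : Tendsto (fun n : ℕ => Nat.log 2 n + 1) atTop atTop := by
  refine tendsto_atTop.2 fun b => ?_
  filter_upwards [eventually_ge_atTop (2 ^ b)] with n hn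
  exact (Nat.le_log_of_pow_le (by norm_num) hn).trans (Nat.le_succ _)

theorem t_num : S_num := by
  intro t k s G d₂
  set E : ℕ := 2056 + 60 + 2 * s + cst k t + t * (2048 * d₂ * G + 1) + 4 + t + G with hE
  filter_upwards [tendsto_log.eventually ((ev_poly E 1).and (eventually_ge_atTop 12))]
    with n hn u hu
  rw [← hu] at hn
  obtain ⟨h1, h2⟩ := hn
  rw [pow_one] at h1
  have hnu : n < 2 ^ u := by rw [hu]; exact Nat.lt_pow_succ_log_self (by norm_num) n
  have hEu : E ≤ E * (u + 1) := Nat.le_mul_of_pos_right _ (by omega)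
  have h22 : 2 ^ u ≤ 2 ^ (2 * u) := Nat.pow_le_pow_right (by norm_num) (by omega)
  refine ⟨by omega, hnu, by omega, ?_, ?_⟩
  · have h3 : 8 * 2 ^ u ≤ 2 ^ (512 * u) := by
      have e : (8 : ℕ) * 2 ^ u = 2 ^ (3 + u) := by rw [pow_add]; norm_num
      rw [e]
      exact Nat.pow_le_pow_right (by norm_num) (by omega)
    have h4 : (2056 + 60 + 2 * s + cst k t) * (u + 1) ≤ E * (u + 1) :=
      Nat.mul_le_mul_right _ (by omega)
    have h5 : 2 * s + 1 + (4 * (n + 1 + (u + 11) + 512 * u) + 2) + cst k t + 2 ≤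
        2 ^ (512 * u) := by
      nlinarith
    have h6 : 1 ≤ 2 ^ (512 * u) := Nat.one_le_two_pow
    have e : 2 ^ (1024 * u) = 2 ^ (512 * u) * 2 ^ (512 * u) := by
      rw [← pow_add]; congr 1; ring
    rw [e]
    calc 2 * s + 1 + (2 ^ (512 * u) * (4 * (n + 1 + (u + 11) + 512 * u) + 2) + cst k t) + 2
        ≤ 2 ^ (512 * u) *
            (2 * s + 1 + (4 * (n + 1 + (u + 11) + 512 * u) + 2) + cst k t + 2) := by
          have h7 : 2 * s + 1 + cst k t + 2 ≤ 2 ^ (512 * u) * (2 * s + 1 + cst k t + 2) :=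
            Nat.le_mul_of_pos_left _ (by positivity)
          have e2 : 2 ^ (512 * u) * (2 * s + 1 + (4 * (n + 1 + (u + 11) + 512 * u) + 2) +
            cst k t + 2) = 2 ^ (512 * u) * (2 * s + 1 + cst k t + 2) +
              2 ^ (512 * u) * (4 * (n + 1 + (u + 11) + 512 * u) + 2) := by ring
          omega
      _ ≤ _ := Nat.mul_le_mul_left _ h5
  · set a : ℕ := 2 ^ (u + 11) + t * (2 * (1024 * u * d₂ * G) + 1) + 2 with ha
    set b : ℕ := 2 ^ (2 * u) with hb
    have h3 : a + t + 2 ≤ b := by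
      have h4 : 2 ^ (u + 11) + 2 ^ (2 * u - 1) ≤ b := by
        have h5 : 2 ^ (u + 11) ≤ 2 ^ (2 * u - 1) :=
          Nat.pow_le_pow_right (by norm_num) (by omega)
        have h6 : b = 2 ^ (2 * u - 1) + 2 ^ (2 * u - 1) := by
          rw [hb]
          have : 2 * u = 2 * u - 1 + 1 := by omega
          conv_lhs => rw [this]
          rw [pow_succ]
          ring
        omega
      have h7 : 2 ^ u ≤ 2 ^ (2 * u - 1) := Nat.pow_le_pow_right (by norm_num) (by omega)
      have h8 : (t * (2048 * d₂ * G + 1) + 4 + t) * (u + 1) ≤ E * (u + 1) :=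
        Nat.mul_le_mul_right _ (by omega)
      have h9 : t * (2 * (1024 * u * d₂ * G) + 1) + 2 + t + 2 ≤
          (t * (2048 * d₂ * G + 1) + 4 + t) * (u + 1) := by
        have e1 : t * (2 * (1024 * u * d₂ * G) + 1) = t * (2048 * d₂ * G) * u + t := by ring
        have e2 : (t * (2048 * d₂ * G + 1) + 4 + t) * (u + 1) =
          t * (2048 * d₂ * G) * u + t * (2048 * d₂ * G) + t * u + t + 4 * u + 4 + t * u + t := by
          ring
        rw [e1, e2]
        have : 0 ≤ t * u := Nat.zero_le _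
        omega
      omega
    have h4 : (t : ℝ) ≤ 2 ^ t := by exact_mod_cast (Nat.lt_two_pow_self (n := t)).le
    have h5 : (t : ℝ) * (2 ^ a * (1 / 2) ^ (b + 1)) ≤ 1 / 8 := by
      have h6 : (2 : ℝ) ^ (a + t + 2) ≤ 2 ^ b := pow_le_pow_right₀ (by norm_num) h3
      have h7 : (0 : ℝ) < 2 ^ b := by positivity
      have h8 : (1 / 2 : ℝ) ^ (b + 1) = 1 / (2 ^ b * 2) := by
        rw [one_div, inv_pow, pow_succ, one_div]
      rw [h8]
      have h9 : (t : ℝ) * 2 ^ a ≤ 2 ^ b / 4 := by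
        have h10 : (t : ℝ) * 2 ^ a ≤ 2 ^ t * 2 ^ a := by gcongr
        have h11 : (2 : ℝ) ^ (a + t + 2) = 2 ^ t * 2 ^ a * 4 := by
          rw [pow_add, pow_add]; ring
        linarith
      have h10 : (t : ℝ) * (2 ^ a * (1 / (2 ^ b * 2))) = t * 2 ^ a / (2 ^ b * 2) := by ring
      rw [h10, div_le_iff₀ (by positivity)]
      linarith
    have h6 : 3 * (1 / 2 : ℝ) ^ (2 ^ u) ≤ 3 / 4 := by
      have h7 : (1 / 2 : ℝ) ^ (2 ^ u) ≤ (1 / 2) ^ 2 := by
        refine pow_le_pow_of_le_one (by norm_num) (by norm_num) ?_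
        calc 2 = 2 ^ 1 := by norm_num
          _ ≤ 2 ^ u := Nat.pow_le_pow_right (by norm_num) (by omega)
      norm_num at h7 ⊢
      linarith
    linarith

end Pool.Agent.U195.WN
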