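import Pool.Agent.U195.WN.Onen
import Pool.Agent.Y581.WN.Mini

/-! # The error depends on strings of polynomial length only -/

set_option autoImplicit false

namespace Pool.Agent.U195.WN

open Filter hiding join
open Pool.Agent.NPC Pool.Agent.H622R2 Pool.Agent.H620R2.Gauge Pool.Agent.TH678.GC
  Pool.Agent.H591R3.PHG Pool.Agent.TH678.RS Pool.Agent.H622R2.Exp Pool.Agent.Y626.WG
  Pool.Agent.Y581.WN

theorem sum_le_sz {α : Type} [TEnc α] (f : α → ℕ) (hf : ∀ a, f a ≤ sz a) (l : List α) :
    (l.map f).sum ≤ sz l := by
  induction l with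
  | nil => simp
  | cons a l ih =>
    rw [List.map_cons, List.sum_cons, sz_list_cons]
    have := hf a
    omega

/-- the truth of a sentence depends on strings of quadratic length -/
theorem sat_loc2 (I : Inst) {A A' : Oracle}
    (h : ∀ q : List Bool, q.length ≤ sz I * sz I → A q = A' q) : I.Sat A ↔ I.Sat A' := by
  set Λ : ℕ := (I.labels.map List.length).sum with hΛ
  have h1 : ∀ i, (I.labels.getD i []).length ≤ Λ := by
    intro i
    rw [List.getD_eq_getElem?_getD]
    rcases h : I.labels[i]? with _ | a
    · simp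
    · rw [Option.getD_some]
      refine List.single_le_sum (fun _ _ => Nat.zero_le _) _ ?_
      exact List.mem_map.2 ⟨a, List.mem_of_getElem? h, rfl⟩
  have h2 : ∀ (l : List ℕ) (v : List ℕ),
      (l.flatMap fun i => I.labels.getD (v.getD i 0) []).length ≤ l.length * Λ := by
    intro l v
    induction l with
    | nil => simp
    | cons a l ih =>
      rw [List.flatMap_cons, List.length_append, List.length_cons, Nat.succ_mul]
      have := h1 (v.getD a 0)
      omega
  have e : sz I = sz (I.labels, I.rels, I.blocks, I.atoms, I.acc) := rfl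
  rw [sz_pair, sz_pair, sz_pair, sz_pair] at e
  have h4 : Λ ≤ sz I := by
    have := sum_le_sz List.length (fun a : List Bool => (length_lt_sz a).le) I.labels
    omega
  have h5 : ∀ a ∈ I.atoms, a.2.length ≤ sz I := by
    intro a ha
    have h6 := sz_le_of_mem ha
    obtain ⟨r, l⟩ := a
    rw [sz_pair] at h6
    have h7 := length_lt_sz l
    show l.length ≤ sz I
    omega
  unfold Inst.Sat
  refine holds_congr (fun v => ?_) _ _ _
  have h3 : I.atoms.map (I.atom A v) = I.atoms.map (I.atom A' v) := by
    refine List.map_congr_left fun a ha => ?_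
    obtain ⟨r, l⟩ := a
    cases r with
    | zero =>
      refine h _ ((h2 l v).trans ?_)
      exact Nat.mul_le_mul (h5 _ ha) h4
    | succ r => rfl
  rw [h3]

theorem t_loc : S_loc := by
  intro t M σ G a
  obtain ⟨qM, hqM⟩ := M.out_local
  obtain ⟨bo, hbo⟩ := M.out_length
  set D : Polynomial ℕ := Polynomial.C (2 * σ.length + 1) + a with hD
  refine ⟨qM.comp D + a * a + bo.comp D * bo.comp D, ?_⟩
  intro n x B' B'' hx hag hbad
  simp only [Polynomial.eval_add, Polynomial.eval_mul] at hag
  have hin : (pairBits σ (bits x)).length ≤ D.eval n := by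
    rw [length_pairBits, hD, Polynomial.eval_add, Polynomial.eval_C]
    omega
  have e1 : M.out B'' (pairBits σ (bits x)) = M.out B' (pairBits σ (bits x)) := by
    obtain ⟨Q, _, h11, h12⟩ := hqM B' (pairBits σ (bits x))
    refine h12 B'' fun q hq => hag q ?_
    refine (h11 q hq).trans ?_
    have h13 : qM.eval (pairBits σ (bits x)).length ≤ (qM.comp D).eval n := by
      rw [Polynomial.eval_comp]
      exact eval_mono' _ hin
    omega
  have e2 : x.Sat B'' ↔ x.Sat B' := by
    refine sat_loc2 x fun q hq => hag q (hq.trans ?_)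
    rw [bits_length] at hx
    have := Nat.mul_le_mul hx hx
    omega
  rintro ⟨I, h1, h2, h3, h4⟩
  refine hbad ⟨I, by rw [← e1]; exact h1, h2, h3, ?_⟩
  have e3 : I.Sat B'' ↔ I.Sat B' := by
    refine sat_loc2 I fun q hq => hag q (hq.trans ?_)
    have h5 := hbo _ _ _ h1
    rw [bits_length] at h5
    have h6 : bo.eval (pairBits σ (bits x)).length ≤ (bo.comp D).eval n := by
      rw [Polynomial.eval_comp]
      exact eval_mono' _ hin
    have h7 := Nat.mul_le_mul (h5.trans h6) (h5.trans h6)
    omega
  rw [← e2, h4, e3]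

end Pool.Agent.U195.WN
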