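import Pool.Agent.U195.WN.Locn

/-! # Instances with one incompressible relation -/

set_option autoImplicit false

namespace Pool.Agent.U195.WN

open Filter hiding join
open Pool.Agent.NPC Pool.Agent.H622R2 Pool.Agent.H620R2.Gauge Pool.Agent.TH678.GC
  Pool.Agent.H591R3.PHG Pool.Agent.TH678.RS Pool.Agent.H622R2.Exp Pool.Agent.Y626.WG
  Pool.Agent.Y581.WN
open Pool.Agent.Y626.WC (sat_one)

/-- the existential sentence about the relation `R` and the oracle -/
def hardr (n k ν : ℕ) (R : List (ℕ × ℕ)) : Inst where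
  labels := (List.range (2 ^ ν)).map (labn n 0 ν 0)
  rels := [R]
  blocks := [k]
  atoms := [(0, List.range k), (1, [0, 1])]
  acc := [[true, true]]

theorem hardr_isW (n k ν : ℕ) (R : List (ℕ × ℕ)) : (hardr n k ν R).IsW 1 := by
  refine ⟨⟨?_, ?_⟩, ?_⟩
  · show (List.range (2 ^ ν)).map (labn n 0 ν 0) ≠ []
    intro h
    have h1 := congrArg List.length h
    rw [List.length_map, List.length_range, List.length_nil] at h1
    have : 0 < 2 ^ ν := by positivity
    omega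
  · exact le_refl 1
  · intro s hs
    exact absurd hs (by simp [hardr])

theorem hardr_param (n k ν : ℕ) (R : List (ℕ × ℕ)) : (hardr n k ν R).param = 2 * k + 4 := by
  show ([k] : List ℕ).sum +
    (([(0, List.range k), (1, [0, 1])] : List (ℕ × List ℕ)).map fun p => p.2.length + 1).sum = _
  simp
  ring

theorem sat_hardr (A : Oracle) (n k ν : ℕ) (R : List (ℕ × ℕ)) : (hardr n k ν R).Sat A ↔
    ∃ v, Tup (2 ^ ν) k v ∧ A (v.flatMap (labn n 0 ν 0)) = true ∧
      (v.getD 0 0, v.getD 1 0) ∈ R := by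
  have e1 : (hardr n k ν R).blocks.sum = k := by
    show ([k] : List ℕ).sum = k
    simp
  have e2 : (hardr n k ν R).labels.length = 2 ^ ν := by
    show ((List.range (2 ^ ν)).map (labn n 0 ν 0)).length = _
    rw [List.length_map, List.length_range]
  rw [sat_one (hardr_isW n k ν R), e1, e2]
  refine exists_congr fun v => and_congr_right fun hv => ?_
  have e3 : (hardr n k ν R).atom A v (0, List.range k) =
      A (v.flatMap (labn n 0 ν 0)) := by
    show A ((List.range k).flatMap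
      (fun i => (hardr n k ν R).labels.getD (v.getD i 0) [])) = _
    have h0 : k = v.length := hv.1.symm
    rw [h0, flat_getD v (fun a => (hardr n v.length ν R).labels.getD a [])]
    congr 1
    refine flatMap_congr' fun a ha => ?_
    have ha' : a < 2 ^ ν := hv.2 a ha
    show ((List.range (2 ^ ν)).map (labn n 0 ν 0)).getD a [] = _
    rw [List.getD_eq_getElem _ _ (by simpa using ha')]
    simp
  have e4 : (hardr n k ν R).atom A v (1, [0, 1]) =
      decide ((v.getD 0 0, v.getD 1 0) ∈ R) := rfl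
  show [(hardr n k ν R).atom A v (0, List.range k), (hardr n k ν R).atom A v (1, [0, 1])] ∈
    [[true, true]] ↔ _
  rw [e3, e4]
  simp

/-- the relation given by the function `f` -/
def RR (μ : ℕ) (f : Fin (2 ^ (3 * μ)) → Fin (2 ^ μ)) : List (ℕ × ℕ) :=
  (List.finRange (2 ^ (3 * μ))).map fun a =>
    (a.1 / 2 ^ μ, (a.1 % 2 ^ μ) * 2 ^ μ + (f a).1)

theorem mem_RR {μ : ℕ} {f : Fin (2 ^ (3 * μ)) → Fin (2 ^ μ)} {a : Fin (2 ^ (3 * μ))}
    {y : Fin (2 ^ μ)} : (a.1 / 2 ^ μ, (a.1 % 2 ^ μ) * 2 ^ μ + y.1) ∈ RR μ f ↔ f a = y := by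
  have hp : 0 < 2 ^ μ := by positivity
  unfold RR
  rw [List.mem_map]
  constructor
  · rintro ⟨b, _, hb⟩
    rw [Prod.mk.injEq] at hb
    obtain ⟨h1, h2⟩ := hb
    have h3 : b.1 % 2 ^ μ = a.1 % 2 ^ μ := by
      have e1 := congrArg (· / 2 ^ μ) h2
      rwa [Nat.mul_comm, Nat.mul_add_div hp, Nat.mul_comm (a.1 % 2 ^ μ), Nat.mul_add_div hp,
        Nat.div_eq_of_lt (f b).2, Nat.div_eq_of_lt y.2, Nat.add_zero, Nat.add_zero] at e1
    have h4 : b = a := by
      apply Fin.ext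
      rw [← Nat.div_add_mod b.1 (2 ^ μ), ← Nat.div_add_mod a.1 (2 ^ μ), h1, h3]
    subst h4
    apply Fin.ext
    omega
  · rintro rfl
    exact ⟨a, List.mem_finRange a, rfl⟩

theorem RR_lt {μ : ℕ} (a : Fin (2 ^ (3 * μ))) (y : Fin (2 ^ μ)) :
    a.1 / 2 ^ μ < 2 ^ (2 * μ) ∧ (a.1 % 2 ^ μ) * 2 ^ μ + y.1 < 2 ^ (2 * μ) := by
  have hp : 0 < 2 ^ μ := by positivity
  constructor
  · rw [Nat.div_lt_iff_lt_mul hp, ← pow_add]
    have e : 2 * μ + μ = 3 * μ := by ring
    rw [e]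
    exact a.2
  · have h1 : a.1 % 2 ^ μ + 1 ≤ 2 ^ μ := Nat.mod_lt _ hp
    have h2 := y.2
    calc (a.1 % 2 ^ μ) * 2 ^ μ + y.1 < (a.1 % 2 ^ μ) * 2 ^ μ + 2 ^ μ := by omega
      _ = (a.1 % 2 ^ μ + 1) * 2 ^ μ := by ring
      _ ≤ 2 ^ μ * 2 ^ μ := Nat.mul_le_mul_right _ h1
      _ = 2 ^ (2 * μ) := by rw [← pow_add]; congr 1; ring

theorem sz_RR (μ : ℕ) (f : Fin (2 ^ (3 * μ)) → Fin (2 ^ μ)) :
    sz (RR μ f) ≤ 2 ^ (3 * μ) * (16 * μ + 4) + 1 := by
  have h1 := sz_le_length_mul (RR μ f) (16 * μ + 3) (by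
    intro p hp
    unfold RR at hp
    obtain ⟨a, _, rfl⟩ := List.mem_map.1 hp
    rw [sz_pair]
    obtain ⟨h2, h3⟩ := RR_lt a (f a)
    have h4 := sz_nat_le (a.1 / 2 ^ μ)
    have h5 := sz_nat_le ((a.1 % 2 ^ μ) * 2 ^ μ + (f a).1)
    have h6 := Nat.size_le.2 h2
    have h7 := Nat.size_le.2 h3
    omega)
  have h2 : (RR μ f).length = 2 ^ (3 * μ) := by
    unfold RR
    rw [List.length_map, List.length_finRange]
  rw [h2] at h1
  exact h1

/-- the constant part of the size -/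
def cstr (k : ℕ) : ℕ :=
  sz ([k] : List ℕ) + sz ([(0, List.range k), (1, [0, 1])] : List (ℕ × List ℕ)) +
    sz ([[true, true]] : List (List Bool)) + 10

theorem sz_hardr (n k μ : ℕ) (f : Fin (2 ^ (3 * μ)) → Fin (2 ^ μ)) :
    sz (hardr n k (2 * μ) (RR μ f)) ≤ 2 ^ (3 * μ) * (16 * μ + 4) +
      2 ^ (2 * μ) * (4 * (n + 1 + 0 + 2 * μ) + 2) + cstr k := by
  have e : sz (hardr n k (2 * μ) (RR μ f)) =
      sz ((List.range (2 ^ (2 * μ))).map (labn n 0 (2 * μ) 0)) +
      (sz ([RR μ f] : List (List (ℕ × ℕ))) + (sz ([k] : List ℕ) +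
      (sz ([(0, List.range k), (1, [0, 1])] : List (ℕ × List ℕ)) +
        sz ([[true, true]] : List (List Bool)) + 1) + 1) + 1) + 1 := by
    have : sz (hardr n k (2 * μ) (RR μ f)) =
      sz ((List.range (2 ^ (2 * μ))).map (labn n 0 (2 * μ) 0),
      ([RR μ f] : List (List (ℕ × ℕ))), ([k] : List ℕ),
      ([(0, List.range k), (1, [0, 1])] : List (ℕ × List ℕ)),
      ([[true, true]] : List (List Bool))) := rfl
    rw [this, sz_pair, sz_pair, sz_pair, sz_pair]
  have h1 := sz_le_length_mul ((List.range (2 ^ (2 * μ))).map (labn n 0 (2 * μ) 0))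
    (4 * (n + 1 + 0 + 2 * μ) + 1) (by
      intro a ha
      obtain ⟨i, _, rfl⟩ := List.mem_map.1 ha
      have := sz_listBool_le (labn n 0 (2 * μ) 0 i)
      rw [length_labn'] at this
      exact this)
  rw [List.length_map, List.length_range] at h1
  have h2 : sz ([RR μ f] : List (List (ℕ × ℕ))) = sz (RR μ f) + 1 + 1 := by
    rw [sz_list_cons, sz_list_nil]
  have h3 := sz_RR μ f
  rw [e, h2]
  unfold cstr
  have e2 : 4 * (n + 1 + 0 + 2 * μ) + 1 + 1 = 4 * (n + 1 + 0 + 2 * μ) + 2 := rfl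
  rw [e2] at h1
  omega

/-- two different functions with the same short output -/
theorem pigeon {μ ℓ : ℕ} (hℓ : ℓ + 2 ≤ μ * 2 ^ (3 * μ))
    (r : (Fin (2 ^ (3 * μ)) → Fin (2 ^ μ)) → List Bool) (hr : ∀ f, (r f).length ≤ ℓ) :
    ∃ f f', f ≠ f' ∧ r f = r f' := by
  classical
  obtain ⟨U, hU, hU'⟩ := Pool.Agent.H620R2.Gauge.exists_short ℓ
  have h1 : U.card < (Finset.univ : Finset (Fin (2 ^ (3 * μ)) → Fin (2 ^ μ))).card := by
    rw [Finset.card_univ, Fintype.card_fun, Fintype.card_fin, Fintype.card_fin, ← pow_mul]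
    refine lt_of_le_of_lt hU ?_
    exact Nat.pow_lt_pow_right (by norm_num) (by omega)
  obtain ⟨f, _, f', _, h2, h3⟩ := Finset.exists_ne_map_eq_of_card_lt_of_maps_to h1
    (fun f _ => hU' (r f) (hr f))
  exact ⟨f, f', h2, h3⟩

/-- an unasked question with given first two entries -/
theorem exists_free (n k ν a b : ℕ) (ha : a < 2 ^ ν) (hb : b < 2 ^ ν)
    (Q : Finset (List Bool)) (hQ : Q.card < 2 ^ (ν * k)) :
    ∃ v, Tup (2 ^ ν) (k + 2) v ∧ v.getD 0 0 = a ∧ v.getD 1 0 = b ∧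
      v.flatMap (labn n 0 ν 0) ∉ Q := by
  classical
  by_contra hcon
  push Not at hcon
  have htup : ∀ w : Fin k → Fin (2 ^ ν),
      Tup (2 ^ ν) (k + 2) (a :: b :: List.ofFn fun i => (w i : ℕ)) := by
    intro w
    refine ⟨by simp, fun x hx => ?_⟩
    rcases List.mem_cons.1 hx with rfl | hx
    · exact ha
    rcases List.mem_cons.1 hx with rfl | hx
    · exact hb
    obtain ⟨i, rfl⟩ := (List.mem_ofFn' _ _).1 hx
    exact (w i).2
  have h1 : (Finset.univ : Finset (Fin k → Fin (2 ^ ν))).card ≤ Q.card := by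
    refine Finset.card_le_card_of_injOn (fun w =>
      (a :: b :: List.ofFn fun i => (w i : ℕ)).flatMap (labn n 0 ν 0)) (fun w _ =>
      hcon _ (htup w) (by simp) (by simp)) ?_
    intro w _ w' _ he
    have h2 := (flatn_inj (n := n) (c := 0) (ν := ν) (r := k + 2) (j := 0) (j' := 0) (by omega)
      (htup w) (htup w') (by norm_num) (by norm_num) he).2
    have h3 := List.ofFn_injective (List.cons.inj (List.cons.inj h2).2).2
    funext i
    exact Fin.ext (congrFun h3 i)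
  rw [Finset.card_univ, Fintype.card_fun, Fintype.card_fin, Fintype.card_fin, ← pow_mul] at h1
  omega

/-- The algorithm does not compress the instances `x` and `x'`. -/
def Badc (M : Alg) (σ : List Bool) (H : ℕ) (x x' : Inst) (A : Oracle) : Prop :=
  ¬ ∃ r r' : List Bool, M.out A (pairBits σ (bits x)) = some r ∧
    M.out A (pairBits σ (bits x')) = some r' ∧ 17 * r.length ≤ H + (bits x).length ∧
    17 * r'.length ≤ H + (bits x').length ∧ (r = r' → (x.Sat A ↔ x'.Sat A))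

/-- one error of a compression, by changes in the block -/
theorem core_c (M : Alg) (σ : List Bool) (H : ℕ) {n μ : ℕ} (hμ : 1 ≤ μ)
    (hin : ∀ f : Fin (2 ^ (3 * μ)) → Fin (2 ^ μ),
      (pairBits σ (bits (hardr n (kk M) (2 * μ) (RR μ f)))).length + 2 ≤ 2 ^ (2 * (2 * μ)))
    (hcnt : ∀ f : Fin (2 ^ (3 * μ)) → Fin (2 ^ μ),
      H + (bits (hardr n (kk M) (2 * μ) (RR μ f))).length + 34 ≤ 17 * (μ * 2 ^ (3 * μ)))
    (B : Oracle) :
    ∃ B' : Oracle, (∀ y ∉ Blk n (kk M) 0 0 (2 * μ), B' y = B y) ∧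
      ∃ f f' : Fin (2 ^ (3 * μ)) → Fin (2 ^ μ),
        Badc M σ H (hardr n (kk M) (2 * μ) (RR μ f)) (hardr n (kk M) (2 * μ) (RR μ f')) B' := by
  classical
  obtain ⟨qM, hqM⟩ := M.out_local
  set k := kk M with hk
  have hk3 : k = 2 * pe M + 1 + 2 := by rw [hk]; unfold Pool.Agent.Y626.WG.kk; omega
  set ν := 2 * μ with hν
  set x : (Fin (2 ^ (3 * μ)) → Fin (2 ^ μ)) → Inst := fun f => hardr n k ν (RR μ f) with hx
  set B0 : Oracle := basen B n k 0 0 ν with hB0
  have hB0' : ∀ y ∉ Blk n k 0 0 ν, B0 y = B y := fun y hy => if_neg hy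
  by_cases hbad : ∃ f f', Badc M σ H (x f) (x f') B0
  · exact ⟨B0, hB0', hbad⟩
  have hgood : ∀ f, ∃ r, M.out B0 (pairBits σ (bits (x f))) = some r ∧
      17 * r.length ≤ H + (bits (x f)).length := by
    intro f
    by_contra hcon
    exact hbad ⟨f, f, fun ⟨r, _, h1, _, h2, _⟩ => hcon ⟨r, h1, h2⟩⟩
  choose r hr1 hr2 using hgood
  obtain ⟨f, f', hne, hff⟩ := pigeon (μ := μ) (ℓ := μ * 2 ^ (3 * μ) - 2) (by
    have h1 := Nat.mul_le_mul hμ (Nat.one_le_two_pow (n := 3 * μ))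
    have h2 : 2 ^ 3 ≤ 2 ^ (3 * μ) := Nat.pow_le_pow_right (by norm_num) (by omega)
    have h3 : 2 ^ (3 * μ) ≤ μ * 2 ^ (3 * μ) := Nat.le_mul_of_pos_left _ hμ
    omega) r (fun f => by
    have h1 := hcnt f
    have h2 := hr2 f
    have h3 : (bits (x f)).length = (bits (hardr n k ν (RR μ f))).length := rfl
    omega)
  obtain ⟨a, ha⟩ : ∃ a, f a ≠ f' a := by
    by_contra hcon
    push Not at hcon
    exact hne (funext hcon)
  obtain ⟨Q, hQ1, _, hQ3⟩ := hqM B0 (pairBits σ (bits (x f)))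
  obtain ⟨Q', hQ1', _, hQ3'⟩ := hqM B0 (pairBits σ (bits (x f')))
  have hQc : (Q ∪ Q').card < 2 ^ (ν * (2 * pe M + 1)) := by
    have h8 : ∀ g, qM.eval (pairBits σ (bits (x g))).length ≤ qM.eval
      (pairBits σ (bits (x g))).length := fun _ => le_refl _
    have h9 : Q.card ≤ 2 ^ (2 * ν * pe M) := by
      refine hQ1.trans ((pe_spec M _).trans ?_)
      rw [pow_mul]
      exact Nat.pow_le_pow_left (hin f) _
    have h9' : Q'.card ≤ 2 ^ (2 * ν * pe M) := by
      refine hQ1'.trans ((pe_spec M _).trans ?_)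
      rw [pow_mul]
      exact Nat.pow_le_pow_left (hin f') _
    have h10 : (2 : ℕ) ^ (ν * (2 * pe M + 1)) = 2 ^ (2 * ν * pe M) * 2 ^ ν := by
      rw [← pow_add]
      congr 1
      ring
    have h11 : 4 ≤ (2 : ℕ) ^ ν := by
      calc 4 = 2 ^ 2 := by norm_num
        _ ≤ _ := Nat.pow_le_pow_right (by norm_num) (by omega)
    have h12 : 1 ≤ (2 : ℕ) ^ (2 * ν * pe M) := Nat.one_le_two_pow
    have h13 := Finset.card_union_le Q Q'
    rw [h10]
    nlinarith
  obtain ⟨hlt1, hlt2⟩ := RR_lt a (f a)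
  obtain ⟨v, hv, hv0, hv1, hvQ⟩ := exists_free n (2 * pe M + 1) ν _ _ hlt1 hlt2 (Q ∪ Q') hQc
  rw [← hk3] at hv
  set q := v.flatMap (labn n 0 ν 0) with hq
  have hqB : q ∈ Blk n k 0 0 ν := ⟨0, by norm_num, v, hv, rfl⟩
  set B' : Oracle := Function.update B0 q true with hB'
  have hB'q : ∀ y, y ≠ q → B' y = B0 y := fun y hy => Function.update_of_ne hy _ _
  refine ⟨B', fun y hy => ?_, f, f', ?_⟩
  · rw [hB'q y (fun h => hy (h ▸ hqB)), hB0' y hy]
  · rintro ⟨s, s', h1, h2, _, _, h5⟩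
    have h6 : M.out B' (pairBits σ (bits (x f))) = M.out B0 (pairBits σ (bits (x f))) :=
      hQ3 B' fun z hz => hB'q z fun h => hvQ (Finset.mem_union_left _ (h ▸ hz))
    have h7 : M.out B' (pairBits σ (bits (x f'))) = M.out B0 (pairBits σ (bits (x f'))) :=
      hQ3' B' fun z hz => hB'q z fun h => hvQ (Finset.mem_union_right _ (h ▸ hz))
    have h8 : s = r f := by
      have := h1.symm.trans (h6.trans (hr1 f))
      exact Option.some.inj this
    have h9 : s' = r f' := by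
      have := h2.symm.trans (h7.trans (hr1 f'))
      exact Option.some.inj this
    have h10 : (x f).Sat B' := by
      rw [hx, sat_hardr]
      refine ⟨v, hv, ?_, ?_⟩
      · show B' q = true
        rw [hB']
        simp
      · rw [hv0, hv1]
        exact mem_RR.2 rfl
    have h11 : ¬ (x f').Sat B' := by
      rw [hx, sat_hardr]
      rintro ⟨w, hw, h12, h13⟩
      have h14 : w.flatMap (labn n 0 ν 0) = q := by
        by_contra hc
        rw [hB'q _ hc] at h12
        have h15 : w.flatMap (labn n 0 ν 0) ∈ Blk n k 0 0 ν := ⟨0, by norm_num, w, hw, rfl⟩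
        have h16 : B0 (w.flatMap (labn n 0 ν 0)) = false := if_pos h15
        rw [h16] at h12
        exact Bool.false_ne_true h12
      have h15 : w = v := (flatn_inj (n := n) (c := 0) (ν := ν) (r := k) (j := 0) (j' := 0)
        (by omega) hw hv (by norm_num) (by norm_num) h14).2
      rw [h15, hv0, hv1, mem_RR] at h13
      exact ha h13.symm
    exact h11 ((h5 (by rw [h8, h9, hff])).1 h10)

end Pool.Agent.U195.WN
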